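import Pool.Agent.Helper78.ND.Poly

/-! The lower bound: `i_{m-1} < i_m` and `i_{m+1} = 0` force `i_m > m^m`. -/

open Finset Polynomial

namespace Pool.H78.ND

variable {V : Type}

theorem coeff_zero_P (G : SimpleGraph V) (S : Finset V) : (P G S).coeff 0 = 1 := by
  classical
  rw [coeff_P, powersetCard_zero]
  rw [filter_true_of_mem]
  · rfl
  · intro s hs
    rw [mem_singleton] at hs
    subst hs
    simp

theorem coeff_mono (G : SimpleGraph V) {S T : Finset V} (h : S ⊆ T) (j : ℕ) :
    (P G S).coeff j ≤ (P G T).coeff j := by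
  classical
  rw [coeff_P, coeff_P]
  exact card_le_card (filter_subset_filter _ (powersetCard_mono h))

open Classical in
theorem coeff_insert [DecidableEq V] (G : SimpleGraph V) (S : Finset V) (v : V) (hv : v ∉ S) (j : ℕ) :
    (P G (insert v S)).coeff (j + 1) =
      (P G S).coeff (j + 1) + (P G (S.filter (fun w => ¬ G.Adj v w))).coeff j := by
  rw [P_insert G S v hv, coeff_add, mul_comm, coeff_mul_X]

theorem bern (s t : ℝ) (hs : 0 < s) (ht : 0 < t) (n : ℕ) :
    s ^ n * ((n + 1) * t - n * s) ≤ t ^ (n + 1) := by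
  have h := one_add_mul_le_pow (show (-2 : ℝ) ≤ t / s - 1 by
    have : 0 < t / s := div_pos ht hs
    linarith) (n + 1)
  have h1 : (1 + (t / s - 1)) ^ (n + 1) * s ^ (n + 1) = t ^ (n + 1) := by
    rw [← mul_pow]
    congr 1
    field_simp
    ring
  have h2 := mul_le_mul_of_nonneg_right h (pow_nonneg hs.le (n + 1))
  rw [h1] at h2
  have h3 : (1 + ((n + 1 : ℕ) : ℝ) * (t / s - 1)) * s ^ (n + 1) = s ^ n * ((n + 1) * t - n * s) := by
    rw [pow_succ]
    push_cast
    field_simp
    ring
  rw [h3] at h2
  exact h2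

open Classical in
theorem key (G : SimpleGraph V) : ∀ (k : ℕ) (S : Finset V), (P G S).coeff (k + 2) = 0 →
    ∀ s : ℝ, 0 < s → ((P G S).coeff (k + 1) : ℝ) ≤ s ^ (k + 1) →
      ((k : ℝ) + 1) * (P G S).coeff (k + 1) ≤ s * (P G S).coeff k := by
  intro k
  induction k with
  | zero =>
    intro S _ s hs h
    rw [coeff_zero_P]
    simp only [zero_add, pow_one] at h
    push_cast
    linarith
  | succ k ih =>
    intro S h0 s hs hle
    by_cases hF : (P G S).coeff (k + 2) = 0
    · rw [show k + 1 + 1 = k + 2 from rfl, hF]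
      have : (0 : ℝ) ≤ s * ((P G S).coeff (k + 1) : ℝ) := by positivity
      simpa using this
    have hne : S.Nonempty := by
      rw [nonempty_iff_ne_empty]
      rintro rfl
      apply hF
      rw [P_empty, coeff_one, if_neg (by omega)]
    obtain ⟨L, hL⟩ : ∃ L : V → Finset V, L = fun u => (S.erase u).filter (fun w => ¬ G.Adj u w) :=
      ⟨_, rfl⟩
    obtain ⟨v, hvS, hvmax⟩ := S.exists_max_image (fun u => (P G (L u)).coeff (k + 1)) hne
    have hLsub : ∀ u, L u ⊆ S := by
      intro u; rw [hL]
      exact (filter_subset _ _).trans (erase_subset _ _)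
    have hA : ∀ (W : Finset V) (u : V), W ⊆ S → u ∈ S → u ∉ W →
        (P G (W.filter (fun w => ¬ G.Adj u w))).coeff (k + 2) = 0 ∧
        (P G (W.filter (fun w => ¬ G.Adj u w))).coeff (k + 1) ≤ (P G (L v)).coeff (k + 1) := by
      intro W u hW hu huW
      constructor
      · have h1 := coeff_mono G (insert_subset hu hW) (k + 2 + 1)
        rw [coeff_insert G W u huW] at h1
        have h0' : (P G S).coeff (k + 2 + 1) = 0 := h0
        omega
      · refine le_trans (coeff_mono G ?_ _) (hvmax u hu)
        rw [hL]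
        apply filter_subset_filter
        intro x hx
        rw [mem_erase]
        exact ⟨fun h => huW (h ▸ hx), hW hx⟩
    -- the maximum is positive
    have hM : 0 < (P G (L v)).coeff (k + 1) := by
      by_contra hM
      have hM0 : (P G (L v)).coeff (k + 1) = 0 := by omega
      apply hF
      have : ∀ W : Finset V, W ⊆ S → (P G W).coeff (k + 2) = 0 := by
        intro W
        induction W using Finset.induction_on with
        | empty =>
          intro _
          rw [P_empty, coeff_one, if_neg (by omega)]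
        | insert u W huW ihW =>
          intro hW
          have hWS : W ⊆ S := (subset_insert _ _).trans hW
          have h1 := ihW hWS
          have h2 := (hA W u hWS (hW (mem_insert_self _ _)) huW).2
          rw [show k + 2 = (k + 1) + 1 from rfl, coeff_insert G W u huW]
          rw [show k + 2 = (k + 1) + 1 from rfl] at h1
          omega
      exact this S Subset.rfl
    obtain ⟨t, ht, htM⟩ : ∃ t : ℝ, 0 < t ∧ t ^ (k + 1) = ((P G (L v)).coeff (k + 1) : ℝ) := by
      refine ⟨((P G (L v)).coeff (k + 1) : ℝ) ^ ((1 : ℝ) / ((k + 1 : ℕ) : ℝ)), ?_, ?_⟩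
      · exact Real.rpow_pos_of_pos (by exact_mod_cast hM) _
      · rw [← Real.rpow_natCast, ← Real.rpow_mul (by positivity)]
        rw [one_div, inv_mul_cancel₀ (by positivity), Real.rpow_one]
    have hins : ∀ U : Finset V, U ⊆ S \ L v →
        t * t ^ (k + 1) + ((k : ℝ) + 1) * (P G (L v ∪ U)).coeff (k + 2) ≤
          t * (P G (L v ∪ U)).coeff (k + 1) := by
      intro U
      induction U using Finset.induction_on with
      | empty =>
        intro _
        rw [union_empty]
        have h1 : (P G (L v)).coeff (k + 2) = 0 := by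
          have := (hA (S.erase v) v (erase_subset _ _) hvS (notMem_erase _ _)).1
          rw [hL]; exact this
        rw [h1, htM]
        simp
      | insert u U huU ihU =>
        intro hU
        have hUS : U ⊆ S \ L v := (subset_insert _ _).trans hU
        have huSL := hU (mem_insert_self u U)
        rw [mem_sdiff] at huSL
        have hu : u ∉ L v ∪ U := by
          rw [mem_union]; tauto
        have hW : L v ∪ U ⊆ S := union_subset (hLsub v) (hUS.trans sdiff_subset)
        have e1 : L v ∪ insert u U = insert u (L v ∪ U) := by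
          ext x; simp only [mem_union, mem_insert]; tauto
        obtain ⟨a1, a2⟩ := hA (L v ∪ U) u hW huSL.1 hu
        have h3 := ih _ a1 t ht (by rw [htM]; exact_mod_cast a2)
        have h4 := ihU hUS
        rw [e1, show k + 2 = (k + 1) + 1 from rfl, coeff_insert G _ u hu, coeff_insert G _ u hu]
        rw [show k + 2 = (k + 1) + 1 from rfl] at h4
        push_cast
        linarith
    have hfin := hins (S \ L v) Subset.rfl
    rw [union_sdiff_of_subset (hLsub v)] at hfin
    obtain ⟨F, hFdef⟩ : ∃ F : ℝ, F = ((P G S).coeff (k + 2) : ℝ) := ⟨_, rfl⟩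
    obtain ⟨B, hBdef⟩ : ∃ B : ℝ, B = ((P G S).coeff (k + 1) : ℝ) := ⟨_, rfl⟩
    rw [← hFdef, ← hBdef] at hfin
    rw [show k + 1 + 1 = k + 2 from rfl, ← hFdef] at hle ⊢
    rw [← hBdef]
    have hF0 : 0 ≤ F := by rw [hFdef]; positivity
    have hb := bern s t hs ht (k + 1)
    push_cast at hb ⊢
    -- s * t * B ≥ s * t^(k+2) + s * (k+1) * F
    have hgoal : F * ((k + 1 + 1) * t - (k + 1) * s) ≤ s * t ^ (k + 1 + 1) := by
      rcases le_or_gt (((k : ℝ) + 1 + 1) * t - (k + 1) * s) 0 with hc | hc
      · calc F * ((k + 1 + 1) * t - (k + 1) * s) ≤ 0 := mul_nonpos_of_nonneg_of_nonpos hF0 hc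
          _ ≤ s * t ^ (k + 1 + 1) := by positivity
      · calc F * ((k + 1 + 1) * t - (k + 1) * s)
            ≤ s ^ (k + 2) * ((k + 1 + 1) * t - (k + 1) * s) :=
              mul_le_mul_of_nonneg_right hle hc.le
          _ = s * (s ^ (k + 1) * ((k + 1 + 1) * t - (k + 1) * s)) := by ring
          _ ≤ s * t ^ (k + 1 + 1) := mul_le_mul_of_nonneg_left hb hs.le
    have h5 := mul_le_mul_of_nonneg_left hfin hs.le
    have h6 : t * ((k + 1 + 1) * F) ≤ t * (s * B) := by
      have e : t * t ^ (k + 1) = t ^ (k + 1 + 1) := by ring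
      rw [e] at h5
      nlinarith [h5, hgoal]
    exact le_of_mul_le_mul_left h6 ht

/-- If the number of independent `m`-sets is larger than that of independent `(m-1)`-sets, and
there is no independent `(m+1)`-set, then there are more than `m^m` independent `m`-sets. -/
theorem gt_pow (G : SimpleGraph V) (S : Finset V) (m : ℕ) (hm : 1 ≤ m)
    (h0 : (P G S).coeff (m + 1) = 0) (h : (P G S).coeff (m - 1) < (P G S).coeff m) :
    m ^ m < (P G S).coeff m := by
  obtain ⟨k, rfl⟩ : ∃ k, m = k + 1 := ⟨m - 1, by omega⟩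
  by_contra hcon
  have h1 := key G k S h0 ((k : ℝ) + 1) (by positivity) (by
    have : (P G S).coeff (k + 1) ≤ (k + 1) ^ (k + 1) := by omega
    exact_mod_cast this)
  have h2 := le_of_mul_le_mul_left h1 (by positivity)
  rw [Nat.add_sub_cancel] at h
  have h3 : (P G S).coeff (k + 1) ≤ (P G S).coeff k := by exact_mod_cast h2
  omega

end Pool.H78.ND
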