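import Pool.Agent.Helper78.ND.Realize
import Pool.Agent.Helper78.ND.Lower

/-!
# MP_d775c4_co: the least order `N(m)` realizing all weak orders by independent set counts

For every `m ≥ 4` we prove `m^m + m - 1 ≤ N(m) ≤ m^m + m (m-1)^(m-2) + m - 2`.
The upper bound is new; it gives `N(m) = m^m (1 + O(1/m))`.
-/

open Finset Polynomial

namespace Pool.Agent.Results.MP_d775c4_co.Asymptotic

open Pool.H78.ND

/-- `i_k(G)`: the number of independent sets of `G` with exactly `k` vertices. -/
noncomputable def indCount {n : ℕ} (G : SimpleGraph (Fin n)) (k : ℕ) : ℕ :=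
  Nat.card {s : Finset (Fin n) // G.IsIndepSet (s : Set (Fin n)) ∧ s.card = k}

/-- A weak order (ordered partition into blocks) on `[m]`. The element `j : Fin m` stands for
`j + 1 ∈ [m]`, and `le j k` says that the block of `j + 1` equals or precedes that of `k + 1`. -/
structure WeakOrder (m : ℕ) where
  le : Fin m → Fin m → Prop
  total : ∀ j k, le j k ∨ le k j
  trans : ∀ i j k, le i j → le j k → le i k

/-- `G` realizes the weak order `W` on `[m]`: `α(G) = m` and `W` is the weak order induced by
the numbers `i_1(G), …, i_m(G)`. -/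
def Realizes {n m : ℕ} (G : SimpleGraph (Fin n)) (W : WeakOrder m) : Prop :=
  G.indepNum = m ∧
    ∀ j k : Fin m, W.le j k ↔ indCount G ((j : ℕ) + 1) ≤ indCount G ((k : ℕ) + 1)

/-- The set of all `n` such that every weak order on `[m]` is realized by some graph of order
at most `n`. The number `N(m)` is its least element. -/
def orders (m : ℕ) : Set ℕ :=
  {n | ∀ W : WeakOrder m, ∃ n' ≤ n, ∃ G : SimpleGraph (Fin n'), Realizes G W}

theorem indCount_eq {n : ℕ} (G : SimpleGraph (Fin n)) (k : ℕ) :
    indCount G k = (P G Finset.univ).coeff k := by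
  classical
  rw [coeff_P, indCount]
  apply Nat.subtype_card
  intro s
  rw [mem_filter, mem_powersetCard]
  constructor
  · rintro ⟨⟨_, h1⟩, h2⟩
    exact ⟨h2, h1⟩
  · rintro ⟨h1, h2⟩
    exact ⟨⟨subset_univ _, h2⟩, h1⟩

theorem indCount_one {n : ℕ} (G : SimpleGraph (Fin n)) : indCount G 1 = n := by
  classical
  rw [indCount_eq, coeff_P, filter_true_of_mem, card_powersetCard, card_univ, Fintype.card_fin,
    Nat.choose_one_right]
  intro s hs
  rw [mem_powersetCard, card_eq_one] at hs
  obtain ⟨_, a, rfl⟩ := hs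
  simp

theorem indCount_pos {n : ℕ} (G : SimpleGraph (Fin n)) (k : ℕ) :
    0 < indCount G k ↔ ∃ s : Finset (Fin n), G.IsIndepSet (s : Set (Fin n)) ∧ s.card = k := by
  rw [indCount, Nat.card_pos_iff]
  constructor
  · rintro ⟨⟨s, hs⟩, _⟩
    exact ⟨s, hs⟩
  · rintro ⟨s, hs⟩
    exact ⟨⟨s, hs⟩, inferInstance⟩

/-- `α(G) = m` when `i_m(G) > 0` and `i_j(G) = 0` for `j > m`. -/
theorem indepNum_eq {n m : ℕ} (G : SimpleGraph (Fin n)) (h1 : 0 < indCount G m)
    (h2 : ∀ j, m < j → indCount G j = 0) : G.indepNum = m := by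
  apply le_antisymm
  · obtain ⟨s, hs⟩ := G.exists_isNIndepSet_indepNum
    by_contra hcon
    have h3 := h2 _ (by omega : m < G.indepNum)
    have h4 : 0 < indCount G G.indepNum := (indCount_pos G _).2 ⟨s, hs.isIndepSet, hs.card_eq⟩
    omega
  · obtain ⟨s, hs1, hs2⟩ := (indCount_pos G m).1 h1
    rw [← hs2]
    exact hs1.card_le_indepNum

theorem indCount_zero_of {n m : ℕ} (G : SimpleGraph (Fin n)) (h : G.indepNum = m) (j : ℕ)
    (hj : m < j) : indCount G j = 0 := by
  by_contra hcon
  obtain ⟨s, hs1, hs2⟩ := (indCount_pos G j).1 (by omega)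
  have := hs1.card_le_indepNum
  omega

open Classical in
/-- the rank function of a weak order: the number of elements in strictly smaller blocks -/
noncomputable def rk {m : ℕ} (W : WeakOrder m) (i : ℕ) : ℕ :=
  if h : i - 1 < m then (univ.filter (fun x : Fin m => ¬ W.le ⟨i - 1, h⟩ x)).card else 0

theorem rk_le {m : ℕ} (W : WeakOrder m) (i : ℕ) : rk W i ≤ m - 1 := by
  classical
  unfold rk
  split_ifs with h
  · have h1 : univ.filter (fun x : Fin m => ¬ W.le ⟨i - 1, h⟩ x) ⊆ univ.erase ⟨i - 1, h⟩ := by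
      intro x hx
      rw [mem_filter] at hx
      rw [mem_erase]
      refine ⟨?_, mem_univ _⟩
      rintro rfl
      exact hx.2 ((W.total _ _).elim id id)
    have h2 := card_le_card h1
    rw [card_erase_of_mem (mem_univ _), card_univ, Fintype.card_fin] at h2
    exact h2
  · exact Nat.zero_le _

theorem rk_iff {m : ℕ} (W : WeakOrder m) (j k : Fin m) :
    W.le j k ↔ rk W ((j : ℕ) + 1) ≤ rk W ((k : ℕ) + 1) := by
  classical
  have hj : (j : ℕ) + 1 - 1 < m := by have := j.2; omega
  have hk : (k : ℕ) + 1 - 1 < m := by have := k.2; omega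
  rw [rk, rk, dif_pos hj, dif_pos hk]
  have ej : (⟨(j : ℕ) + 1 - 1, hj⟩ : Fin m) = j := by ext; simp
  have ek : (⟨(k : ℕ) + 1 - 1, hk⟩ : Fin m) = k := by ext; simp
  rw [ej, ek]
  constructor
  · intro h
    apply card_le_card
    intro x hx
    rw [mem_filter] at hx ⊢
    exact ⟨mem_univ _, fun h' => hx.2 (W.trans _ _ _ h h')⟩
  · intro h
    by_contra hcon
    have h1 : W.le k j := (W.total j k).resolve_left hcon
    apply absurd h
    rw [not_le]
    apply card_lt_card
    rw [ssubset_iff_of_subset]
    · refine ⟨k, ?_, ?_⟩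
      · rw [mem_filter]; exact ⟨mem_univ _, hcon⟩
      · rw [mem_filter]
        intro h2
        exact h2.2 ((W.total k k).elim id id)
    · intro x hx
      rw [mem_filter] at hx ⊢
      exact ⟨mem_univ _, fun h' => hx.2 (W.trans _ _ _ h1 h')⟩

/-- the upper bound -/
theorem upper (m : ℕ) (hm : 4 ≤ m) : m ^ m + m * (m - 1) ^ (m - 2) + m - 2 ∈ orders m := by
  intro W
  obtain ⟨K, f, hf, hK, h1, h2, h3⟩ := realize m hm (rk W) (rk_le W)
  obtain ⟨n, G, hG⟩ := hf.fin
  have hc : ∀ j, indCount G j = f.coeff j := fun j => by rw [indCount_eq, hG]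
  refine ⟨n, ?_, G, ?_, ?_⟩
  · rw [← indCount_one G, hc]
    omega
  · apply indepNum_eq
    · rw [hc]
      have := h2 m (by omega) le_rfl
      omega
    · intro j hj
      rw [hc]; exact h3 j hj
  · intro j k
    rw [rk_iff, hc, hc]
    have := h2 (j + 1) (by omega) (by have := j.2; omega)
    have := h2 (k + 1) (by omega) (by have := k.2; omega)
    omega

/-- the rank function of the weak order `m-1 < m < m-2 < ⋯ < 2 < 1` (shifted by one) -/
def hardRank (m : ℕ) (j : ℕ) : ℕ :=
  if j = m - 1 then 1 else if j = m - 2 then 0 else m - 1 - j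

/-- the weak order `m-1 < m < m-2 < ⋯ < 2 < 1` -/
def hard (m : ℕ) : WeakOrder m where
  le j k := hardRank m j ≤ hardRank m k
  total _ _ := le_total _ _
  trans _ _ _ h1 h2 := le_trans h1 h2

/-- the lower bound -/
theorem lower (m : ℕ) (hm : 3 ≤ m) (n : ℕ) (hn : n ∈ orders m) : m ^ m + m - 1 ≤ n := by
  obtain ⟨n', hn', G, hα, hG⟩ := hn (hard m)
  have hlt : ∀ j k : ℕ, j < m → k < m → hardRank m j < hardRank m k →
      indCount G (j + 1) < indCount G (k + 1) := by
    intro j k hj hk h
    have := hG ⟨k, hk⟩ ⟨j, hj⟩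
    by_contra hcon
    have h2 := this.2 (by simpa using hcon)
    exact absurd h2 (by simpa [hard] using h)
  have htop : m ^ m < indCount G m := by
    rw [indCount_eq]
    apply gt_pow G univ m (by omega)
    · rw [← indCount_eq]
      exact indCount_zero_of G hα _ (by omega)
    · rw [← indCount_eq, ← indCount_eq]
      have := hlt (m - 2) (m - 1) (by omega) (by omega) (by
        unfold hardRank
        rw [if_neg (by omega), if_pos rfl, if_pos rfl]
        exact Nat.one_pos)
      rw [show m - 2 + 1 = m - 1 by omega, show m - 1 + 1 = m by omega] at this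
      exact this
  have hchain : ∀ d, d ≤ m - 3 → m ^ m + 2 + d ≤ indCount G (m - 3 - d + 1) := by
    intro d
    induction d with
    | zero =>
      intro _
      have := hlt (m - 1) (m - 3 - 0) (by omega) (by omega) (by
        unfold hardRank
        rw [if_pos rfl, if_neg (by omega), if_neg (by omega)]
        omega)
      rw [show m - 1 + 1 = m by omega] at this
      omega
    | succ d ih =>
      intro hd
      have h1 := ih (by omega)
      have := hlt (m - 3 - d) (m - 3 - (d + 1)) (by omega) (by omega) (by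
        unfold hardRank
        rw [if_neg (by omega), if_neg (by omega), if_neg (by omega), if_neg (by omega)]
        omega)
      omega
  have h1 := hchain (m - 3) le_rfl
  rw [show m - 3 - (m - 3) + 1 = 1 by omega, indCount_one] at h1
  omega

/-- **Main theorem.** For every `m ≥ 4` the number `N(m)` (the least element of `orders m`)
satisfies `m^m + m - 1 ≤ N(m) ≤ m^m + m (m-1)^(m-2) + m - 2`. -/
theorem result (m : ℕ) (hm : 4 ≤ m) :
    ∃ N : ℕ, IsLeast (orders m) N ∧ m ^ m + m - 1 ≤ N ∧
      N ≤ m ^ m + m * (m - 1) ^ (m - 2) + m - 2 := by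
  classical
  have hne : (orders m).Nonempty := ⟨_, upper m hm⟩
  refine ⟨sInf (orders m), ⟨Nat.sInf_mem hne, fun n hn => Nat.sInf_le hn⟩, ?_, ?_⟩
  · exact lower m (by omega) _ (Nat.sInf_mem hne)
  · exact Nat.sInf_le (upper m hm)

end Pool.Agent.Results.MP_d775c4_co.Asymptotic
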