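import Mathlib

/-! Independence polynomials of induced subgraphs and the basic recursions. -/

open Finset Polynomial

namespace Pool.H78.ND

variable {V W : Type}

open Classical in
/-- Independence polynomial of the part of `G` on the finite vertex set `D`. -/
noncomputable def P (G : SimpleGraph V) (D : Finset V) : ℕ[X] :=
  ∑ s ∈ D.powerset, if G.IsIndepSet (s : Set V) then (X : ℕ[X]) ^ s.card else 0

theorem coeff_P (G : SimpleGraph V) (D : Finset V) (j : ℕ)
    [DecidablePred fun s : Finset V => G.IsIndepSet (s : Set V)] :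
    (P G D).coeff j = ((D.powersetCard j).filter (fun s : Finset V => G.IsIndepSet (s : Set V))).card := by
  classical
  rw [P, finsetSum_coeff, Finset.card_filter, Finset.powersetCard_eq_filter]
  rw [Finset.sum_filter]
  refine Finset.sum_congr rfl fun s _ => ?_
  by_cases h : G.IsIndepSet (s : Set V)
  · simp only [h, if_true, coeff_X_pow]
    by_cases h2 : s.card = j
    · simp [h2]
    · rw [if_neg (fun h3 => h2 h3.symm), if_neg h2]
  · simp only [h, if_false, coeff_zero]
    split_ifs <;> rfl

@[simp] theorem P_empty (G : SimpleGraph V) : P G ∅ = 1 := by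
  simp [P]

theorem indep_insert [DecidableEq V] (G : SimpleGraph V) (v : V) (t : Finset V) (hv : v ∉ t) :
    G.IsIndepSet ((insert v t : Finset V) : Set V) ↔
      G.IsIndepSet (t : Set V) ∧ ∀ w ∈ t, ¬ G.Adj v w := by
  constructor
  · intro h
    refine ⟨fun a ha b hb hab => h (by simp [Finset.mem_coe.1 ha]) (by simp [Finset.mem_coe.1 hb])
      hab, fun w hw => ?_⟩
    refine h (by simp) (by simp [hw]) ?_
    rintro rfl
    exact hv hw
  · rintro ⟨h1, h2⟩ a ha b hb hab
    rw [Finset.coe_insert] at ha hb
    rcases ha with rfl | ha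
    · rcases hb with rfl | hb
      · exact absurd rfl hab
      · exact h2 b hb
    · rcases hb with rfl | hb
      · intro h
        exact h2 a ha h.symm
      · exact h1 ha hb hab

open Classical in
theorem P_insert [DecidableEq V] (G : SimpleGraph V) (D : Finset V) (v : V) (hv : v ∉ D) :
    P G (insert v D) = P G D + X * P G (D.filter (fun w => ¬ G.Adj v w)) := by
  unfold P
  rw [sum_powerset_insert hv]
  congr 1
  rw [mul_sum]
  symm
  refine Finset.sum_subset_zero_on_sdiff (powerset_mono.2 (filter_subset _ _)) ?_ ?_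
  · intro t ht
    rw [mem_sdiff, mem_powerset, mem_powerset] at ht
    rw [if_neg]
    intro h
    rw [indep_insert G v t (fun h => hv (ht.1 h))] at h
    apply ht.2
    intro w hw
    rw [mem_filter]
    exact ⟨ht.1 hw, h.2 w hw⟩
  · intro t ht
    rw [mem_powerset] at ht
    have htD : t ⊆ D := ht.trans (filter_subset _ _)
    have hvt : v ∉ t := fun h => hv (htD h)
    have hiff : G.IsIndepSet ((insert v t : Finset V) : Set V) ↔ G.IsIndepSet (t : Set V) := by
      rw [indep_insert G v t hvt]
      exact ⟨fun h => h.1, fun h => ⟨h, fun w hw => (mem_filter.1 (ht hw)).2⟩⟩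
    by_cases h : G.IsIndepSet (t : Set V)
    · rw [if_pos h, if_pos (hiff.2 h), card_insert_of_notMem hvt, pow_succ, mul_comm]
    · rw [if_neg h, if_neg (fun h2 => h (hiff.1 h2)), mul_zero]

open Classical in
/-- strong induction principle on the second finite set -/
theorem P_union_of_nonadj [DecidableEq V] (G : SimpleGraph V) (D : Finset V) :
    ∀ (n : ℕ) (E : Finset V), E.card = n → Disjoint D E → (∀ a ∈ D, ∀ b ∈ E, ¬ G.Adj a b) →
      P G (D ∪ E) = P G D * P G E := by
  intro n
  induction n using Nat.strong_induction_on with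
  | _ n ih =>
    intro E hE hd hna
    rcases E.eq_empty_or_nonempty with rfl | ⟨v, hv⟩
    · simp
    · obtain ⟨E', hvE', rfl⟩ : ∃ E', v ∉ E' ∧ insert v E' = E :=
        ⟨E.erase v, notMem_erase v E, insert_erase hv⟩
      have hvD : v ∉ D := fun h => (Finset.disjoint_left.1 hd h (mem_insert_self v E'))
      have hcard : E'.card < n := by rw [← hE, card_insert_of_notMem hvE']; omega
      have hd' : Disjoint D E' := hd.mono_right (subset_insert _ _)
      have h1 : D ∪ insert v E' = insert v (D ∪ E') := by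
        ext x; simp only [mem_union, mem_insert]; tauto
      have h2 : v ∉ D ∪ E' := by
        rw [mem_union]; tauto
      have h3 : (D ∪ E').filter (fun w => ¬ G.Adj v w) = D ∪ E'.filter (fun w => ¬ G.Adj v w) := by
        ext x
        simp only [mem_union, mem_filter]
        constructor
        · rintro ⟨h | h, h'⟩
          · exact Or.inl h
          · exact Or.inr ⟨h, h'⟩
        · rintro (h | h)
          · exact ⟨Or.inl h, fun h' => hna x h v (mem_insert_self _ _) h'.symm⟩
          · exact ⟨Or.inr h.1, h.2⟩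
      rw [h1, P_insert G _ v h2, P_insert G _ v hvE', h3,
        ih _ hcard E' rfl hd' (fun a ha b hb => hna a ha b (mem_insert_of_mem hb)),
        ih _ (lt_of_le_of_lt (card_filter_le _ _) hcard) (E'.filter (fun w => ¬ G.Adj v w)) rfl
          (hd'.mono_right (filter_subset _ _))
          (fun a ha b hb => hna a ha b (mem_insert_of_mem (mem_filter.1 hb).1))]
      ring

open Classical in
theorem P_union_of_adj [DecidableEq V] (G : SimpleGraph V) (D : Finset V) :
    ∀ (n : ℕ) (E : Finset V), E.card = n → Disjoint D E → (∀ a ∈ D, ∀ b ∈ E, G.Adj a b) →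
      P G (D ∪ E) + 1 = P G D + P G E := by
  intro n
  induction n using Nat.strong_induction_on with
  | _ n ih =>
    intro E hE hd hna
    rcases E.eq_empty_or_nonempty with rfl | ⟨v, hv⟩
    · simp
    · obtain ⟨E', hvE', rfl⟩ : ∃ E', v ∉ E' ∧ insert v E' = E :=
        ⟨E.erase v, notMem_erase v E, insert_erase hv⟩
      have hvD : v ∉ D := fun h => (Finset.disjoint_left.1 hd h (mem_insert_self v E'))
      have hcard : E'.card < n := by rw [← hE, card_insert_of_notMem hvE']; omega
      have hd' : Disjoint D E' := hd.mono_right (subset_insert _ _)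
      have h1 : D ∪ insert v E' = insert v (D ∪ E') := by
        ext x; simp only [mem_union, mem_insert]; tauto
      have h2 : v ∉ D ∪ E' := by
        rw [mem_union]; tauto
      have h3 : (D ∪ E').filter (fun w => ¬ G.Adj v w) = E'.filter (fun w => ¬ G.Adj v w) := by
        ext x
        simp only [mem_union, mem_filter]
        constructor
        · rintro ⟨h | h, h'⟩
          · exact absurd (hna x h v (mem_insert_self _ _)).symm h'
          · exact ⟨h, h'⟩
        · rintro h
          exact ⟨Or.inr h.1, h.2⟩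
      have := ih _ hcard E' rfl hd' (fun a ha b hb => hna a ha b (mem_insert_of_mem hb))
      rw [h1, P_insert G _ v h2, P_insert G _ v hvE', h3, add_right_comm, this]
      ring

open Classical in
theorem P_map (G : SimpleGraph W) (f : V ↪ W) :
    ∀ (n : ℕ) (E : Finset V), E.card = n → P G (E.map f) = P (G.comap f) E := by
  intro n
  induction n using Nat.strong_induction_on with
  | _ n ih =>
    intro E hE
    rcases E.eq_empty_or_nonempty with rfl | ⟨v, hv⟩
    · simp
    · obtain ⟨E', hvE', rfl⟩ : ∃ E', v ∉ E' ∧ insert v E' = E :=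
        ⟨E.erase v, notMem_erase v E, insert_erase hv⟩
      have hcard : E'.card < n := by rw [← hE, card_insert_of_notMem hvE']; omega
      have h2 : f v ∉ E'.map f := by
        rw [mem_map']; exact hvE'
      have h3 : (E'.map f).filter (fun w => ¬ G.Adj (f v) w) =
          (E'.filter (fun w => ¬ (G.comap f).Adj v w)).map f := by
        rw [Finset.filter_map]
        rfl
      rw [map_insert, P_insert G _ _ h2, P_insert _ _ v hvE', h3, ih _ hcard E' rfl,
        ih _ (lt_of_le_of_lt (card_filter_le _ _) hcard) _ rfl]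
      congr!

/-- `p` is the independence polynomial of some finite graph. -/
def Rz (p : ℕ[X]) : Prop := ∃ (V : Type) (G : SimpleGraph V) (D : Finset V), P G D = p

/-- transfer to a graph on `Fin n`. -/
theorem Rz.fin {p : ℕ[X]} (h : Rz p) :
    ∃ (n : ℕ) (G : SimpleGraph (Fin n)), P G Finset.univ = p := by
  obtain ⟨V, G, D, rfl⟩ := h
  refine ⟨D.card, G.comap (D.equivFin.symm.toEmbedding.trans (Function.Embedding.subtype _)), ?_⟩
  rw [← P_map G _ _ _ rfl]
  congr 1
  ext x
  simp only [mem_map, mem_univ, true_and, Function.Embedding.trans_apply,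
    Equiv.coe_toEmbedding, Function.Embedding.subtype_apply]
  constructor
  · rintro ⟨a, rfl⟩
    exact (D.equivFin.symm a).2
  · intro hx
    exact ⟨D.equivFin ⟨x, hx⟩, by simp⟩

theorem Rz.one : Rz 1 := ⟨ℕ, ⊥, ∅, P_empty _⟩

theorem comap_inl_sum (G : SimpleGraph V) (H : SimpleGraph W) :
    (G ⊕g H).comap (Function.Embedding.inl : V ↪ V ⊕ W) = G := by
  ext a b
  simp

theorem comap_inr_sum (G : SimpleGraph V) (H : SimpleGraph W) :
    (G ⊕g H).comap (Function.Embedding.inr : W ↪ V ⊕ W) = H := by
  ext a b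
  simp

theorem disj_inl_inr (D : Finset V) (E : Finset W) :
    Disjoint (D.map (Function.Embedding.inl : V ↪ V ⊕ W))
      (E.map (Function.Embedding.inr : W ↪ V ⊕ W)) := by
  rw [Finset.disjoint_left]
  intro x hx hx'
  rw [mem_map] at hx hx'
  obtain ⟨a, _, rfl⟩ := hx
  obtain ⟨b, _, hb⟩ := hx'
  cases hb

theorem Rz.mul {p q : ℕ[X]} (hp : Rz p) (hq : Rz q) : Rz (p * q) := by
  classical
  obtain ⟨V, G, D, rfl⟩ := hp
  obtain ⟨W, H, E, rfl⟩ := hq
  refine ⟨V ⊕ W, G ⊕g H, D.map Function.Embedding.inl ∪ E.map Function.Embedding.inr, ?_⟩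
  rw [P_union_of_nonadj _ _ _ _ rfl (disj_inl_inr D E), P_map _ _ _ _ rfl, P_map _ _ _ _ rfl,
    comap_inl_sum, comap_inr_sum]
  intro a ha b hb
  rw [mem_map] at ha hb
  obtain ⟨a, _, rfl⟩ := ha
  obtain ⟨b, _, rfl⟩ := hb
  simp

theorem Rz.join {p q : ℕ[X]} (hp : Rz p) (hq : Rz q) : ∃ r, Rz r ∧ r + 1 = p + q := by
  classical
  obtain ⟨V, G, D, rfl⟩ := hp
  obtain ⟨W, H, E, rfl⟩ := hq
  let J : SimpleGraph (V ⊕ W) := (Gᶜ ⊕g Hᶜ)ᶜ
  refine ⟨_, ⟨V ⊕ W, J, D.map Function.Embedding.inl ∪ E.map Function.Embedding.inr, rfl⟩, ?_⟩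
  rw [P_union_of_adj _ _ _ _ rfl (disj_inl_inr D E), P_map _ _ _ _ rfl, P_map _ _ _ _ rfl]
  · congr 2
    · ext a b
      simp only [J, SimpleGraph.comap_adj, SimpleGraph.compl_adj, Function.Embedding.inl_apply,
        SimpleGraph.sum_adj_inl, ne_eq, Sum.inl.injEq]
      constructor
      · rintro ⟨h1, h2⟩
        by_contra h
        exact h2 ⟨h1, h⟩
      · intro h
        exact ⟨h.ne, fun h' => h'.2 h⟩
    · ext a b
      simp only [J, SimpleGraph.comap_adj, SimpleGraph.compl_adj, Function.Embedding.inr_apply,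
        SimpleGraph.sum_adj_inr, ne_eq, Sum.inr.injEq]
      constructor
      · rintro ⟨h1, h2⟩
        by_contra h
        exact h2 ⟨h1, h⟩
      · intro h
        exact ⟨h.ne, fun h' => h'.2 h⟩
  · intro a ha b hb
    rw [mem_map] at ha hb
    obtain ⟨a, _, rfl⟩ := ha
    obtain ⟨b, _, rfl⟩ := hb
    simp [J]

/-- the cluster graph on `ℕ × ℕ`: two vertices are adjacent when the first coordinates agree -/
def cl : SimpleGraph (ℕ × ℕ) where
  Adj x y := x.1 = y.1 ∧ x ≠ y
  symm := ⟨fun _ _ h => ⟨h.1.symm, h.2.symm⟩⟩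
  loopless := ⟨fun _ h => h.2 rfl⟩

open Classical in
theorem P_cl_row (i a : ℕ) : P cl ({i} ×ˢ range a) = 1 + C a * X := by
  induction a with
  | zero => simp
  | succ a ih =>
    have h1 : ({i} ×ˢ range (a + 1) : Finset (ℕ × ℕ)) = insert (i, a) ({i} ×ˢ range a) := by
      ext ⟨x, y⟩
      simp only [mem_product, mem_singleton, mem_range, mem_insert, Prod.mk.injEq]
      omega
    have h2 : ((i, a) : ℕ × ℕ) ∉ ({i} ×ˢ range a : Finset (ℕ × ℕ)) := by simp
    have h3 : ({i} ×ˢ range a : Finset (ℕ × ℕ)).filter (fun w => ¬ cl.Adj (i, a) w) = ∅ := by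
      rw [filter_eq_empty_iff]
      rintro ⟨x, y⟩ hxy
      simp only [mem_product, mem_singleton, mem_range] at hxy
      rw [not_not]
      refine ⟨hxy.1.symm, ?_⟩
      intro h
      rw [Prod.mk.injEq] at h
      omega
    rw [h1, P_insert _ _ _ h2, h3, ih, P_empty]
    rw [map_add, map_one]
    ring

open Classical in
theorem P_cl_rect (r a : ℕ) : P cl (range r ×ˢ range a) = (1 + C a * X) ^ r := by
  induction r with
  | zero => simp
  | succ r ih =>
    have h1 : (range (r + 1) ×ˢ range a : Finset (ℕ × ℕ)) =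
        (range r ×ˢ range a) ∪ ({r} ×ˢ range a) := by
      ext ⟨x, y⟩
      simp only [mem_product, mem_singleton, mem_range, mem_union]
      omega
    rw [h1, P_union_of_nonadj _ _ _ _ rfl, ih, P_cl_row, pow_succ]
    · rw [Finset.disjoint_left]
      rintro ⟨x, y⟩
      simp only [mem_product, mem_singleton, mem_range]
      omega
    · rintro ⟨x, y⟩ h ⟨x', y'⟩ h' h''
      simp only [mem_product, mem_singleton, mem_range] at h h'
      have := h''.1
      simp only at this
      omega

theorem Rz.lin (a r : ℕ) : Rz ((1 + C a * X) ^ r) := ⟨_, _, _, P_cl_rect r a⟩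

/-- the cluster graph with one more vertex `none`, not adjacent exactly to the points of `S`. -/
def clv (S : Set (ℕ × ℕ)) : SimpleGraph (Option (ℕ × ℕ)) where
  Adj x y := match x, y with
    | none, none => False
    | none, some b => b ∉ S
    | some a, none => a ∉ S
    | some a, some b => cl.Adj a b
  symm := ⟨fun x y h => by
    match x, y, h with
    | none, some b, h => exact h
    | some a, none, h => exact h
    | some a, some b, h => exact h.symm⟩
  loopless := ⟨fun x h => by
    match x, h with
    | some a, h => exact h.2 rfl⟩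

open Classical in
theorem P_clv (S E : Finset (ℕ × ℕ)) (h : S ⊆ E) :
    P (clv (S : Set (ℕ × ℕ))) (insert none (E.map Function.Embedding.some)) =
      P cl E + X * P cl S := by
  have hc : (clv (S : Set (ℕ × ℕ))).comap (Function.Embedding.some : _ ↪ Option (ℕ × ℕ)) = cl := by
    ext a b
    rfl
  have h1 : (none : Option (ℕ × ℕ)) ∉ E.map Function.Embedding.some := by simp
  have h2 : (E.map Function.Embedding.some).filter
      (fun w => ¬ (clv (S : Set (ℕ × ℕ))).Adj none w) = S.map Function.Embedding.some := by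
    ext x
    simp only [mem_filter, mem_map, Function.Embedding.some_apply]
    constructor
    · rintro ⟨⟨a, ha, rfl⟩, h'⟩
      refine ⟨a, ?_, rfl⟩
      by_contra h3
      exact h' h3
    · rintro ⟨a, ha, rfl⟩
      exact ⟨⟨a, h ha, rfl⟩, fun h' => h' ha⟩
  rw [P_insert _ _ _ h1, h2, P_map _ _ _ _ rfl, P_map _ _ _ _ rfl, hc]

/-- the second base polynomial -/
theorem Rz.base2 (m : ℕ) (hm : 2 ≤ m) :
    Rz ((1 + C m * X) ^ m + X * (1 + C (m - 1) * X) ^ (m - 2) * (1 + C m * X)) := by
  have h1 : Rz ((1 + C m * X) ^ (m - 1) + X * (1 + C (m - 1) * X) ^ (m - 2)) := by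
    refine ⟨_, _, _, (P_clv (range (m - 2) ×ˢ range (m - 1)) (range (m - 1) ×ˢ range m) ?_).trans ?_⟩
    · refine product_subset_product ?_ ?_ <;> apply range_mono <;> omega
    · rw [P_cl_rect, P_cl_rect]
  have h2 := h1.mul (Rz.lin m 1)
  convert h2 using 1
  obtain ⟨k, rfl⟩ : ∃ k, m = k + 1 := ⟨m - 1, by omega⟩
  rw [Nat.add_sub_cancel, pow_succ]
  ring

end Pool.H78.ND
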