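import Pool.Agent.Helper78.ND.Upper

/-! The two base graphs and the realization of all weak orders. -/

open Finset Polynomial

namespace Pool.H78.ND

/-- base sequence one -/
theorem base_one (m : ℕ) : Rs (fun j => m.choose j * m ^ j) := by
  have h := Rs.of (Rz.lin m m)
  convert h using 2
  rw [coeff_lin_pow]

/-- the extra part of base two -/
def Dx (m : ℕ) : ℕ → ℕ
  | 0 => 1
  | j + 1 => (m - 2).choose (j + 1) * (m - 1) ^ (j + 1) + m * ((m - 2).choose j * (m - 1) ^ j)

theorem base_two (m : ℕ) (hm : 2 ≤ m) : Rs (fun j => m.choose j * m ^ j + Dx m (j - 1)) := by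
  refine ⟨_, Rz.base2 m hm, fun j hj => ?_⟩
  obtain ⟨i, rfl⟩ : ∃ i, j = i + 1 := ⟨j - 1, by omega⟩
  rw [coeff_add, coeff_lin_pow, mul_assoc, mul_comm X, coeff_mul_X]
  simp only [Nat.add_sub_cancel]
  congr 1
  rcases i with _ | i
  · rw [coeff_lin_mul_zero, coeff_lin_pow, Dx]; simp
  · rw [coeff_lin_mul, coeff_lin_pow, coeff_lin_pow, Dx]

theorem Dx_ratio (m i : ℕ) (hm : 4 ≤ m) (hi1 : 1 ≤ i) (hi : i < m - 1) :
    m * Dx m (i - 1) ≤ (i + 1) * Dx m i := by
  rcases i with _ | i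
  · omega
  rcases i with _ | k
  · simp only [Nat.sub_self, Dx, Nat.choose_zero_right, pow_zero]
    simp only [zero_add, Nat.choose_one_right, pow_one]
    omega
  · simp only [Nat.add_sub_cancel, Dx]
    have h := Nat.choose_succ_right_eq (m - 2) k
    obtain ⟨A, hA⟩ : ∃ A, A = (m - 2).choose k * (m - 1) ^ k := ⟨_, rfl⟩
    obtain ⟨B, hB⟩ : ∃ B, B = (m - 2).choose (k + 1) * (m - 1) ^ (k + 1) := ⟨_, rfl⟩
    obtain ⟨B', hB'⟩ : ∃ B', B' = (m - 2).choose (k + 1 + 1) * (m - 1) ^ (k + 1 + 1) := ⟨_, rfl⟩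
    rw [← hA, ← hB, ← hB']
    have h1 : (k + 1) * B = (m - 2 - k) * ((m - 1) * A) := by
      rw [hB, hA, pow_succ]
      calc (k + 1) * ((m - 2).choose (k + 1) * ((m - 1) ^ k * (m - 1)))
          = ((m - 2).choose (k + 1) * (k + 1)) * ((m - 1) ^ k * (m - 1)) := by ring
        _ = _ := by rw [h]; ring
    have h2 : 2 * ((m - 1) * A) ≤ (k + 1) * B := by
      rw [h1]; exact Nat.mul_le_mul_right _ (by omega)
    have h3 : m * A ≤ 2 * ((m - 1) * A) := by
      rw [← mul_assoc]; exact Nat.mul_le_mul_right _ (by omega)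
    have h4 : m * A ≤ (k + 2) * B := by
      calc m * A ≤ (k + 1) * B := h3.trans h2
        _ ≤ (k + 2) * B := Nat.mul_le_mul_right _ (by omega)
    calc m * (B + m * A) ≤ m * (B + (k + 2) * B) :=
          Nat.mul_le_mul_left _ (Nat.add_le_add_left h4 _)
      _ = (k + 3) * (m * B) := by ring
      _ ≤ (k + 1 + 1 + 1) * (B' + m * B) := Nat.mul_le_mul_left _ (Nat.le_add_left _ _)

theorem Dx_top (m : ℕ) (hm : 4 ≤ m) :
    Dx m (m - 1) = m * (m - 1) ^ (m - 2) ∧
    Dx m (m - 2) + (m - 1) ^ (m - 3) = m * (m - 1) ^ (m - 2) ∧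
    ∀ j, m ≤ j → Dx m j = 0 := by
  refine ⟨?_, ?_, ?_⟩
  · obtain ⟨n, rfl⟩ : ∃ n, m = n + 2 := ⟨m - 2, by omega⟩
    simp only [show n + 2 - 1 = n + 1 by omega, show n + 2 - 2 = n by omega, Dx,
      Nat.choose_succ_self, Nat.choose_self]
    ring
  · obtain ⟨n, rfl⟩ : ∃ n, m = n + 3 := ⟨m - 3, by omega⟩
    simp only [show n + 3 - 1 = n + 2 by omega, show n + 3 - 2 = n + 1 by omega,
      show n + 3 - 3 = n by omega, Dx, Nat.choose_self, Nat.choose_succ_self_right]
    ring
  · intro j hj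
    obtain ⟨i, rfl⟩ : ∃ i, j = i + 1 := ⟨j - 1, by omega⟩
    rw [Dx, Nat.choose_eq_zero_of_lt (by omega), Nat.choose_eq_zero_of_lt (by omega)]
    ring

/-- Realization of every weak order, in terms of a rank function `p ≤ m - 1`. -/
theorem realize (m : ℕ) (hm : 4 ≤ m) (p : ℕ → ℕ) (hp : ∀ j, p j ≤ m - 1) :
    ∃ (K : ℕ) (f : ℕ[X]), Rz f ∧ m ≤ K ∧
      f.coeff 1 ≤ m ^ m + m * (m - 1) ^ (m - 2) + (m - 2) ∧
      (∀ j, 1 ≤ j → j ≤ m → f.coeff j + p m = K + p j) ∧ ∀ j, m < j → f.coeff j = 0 := by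
  obtain ⟨a, ha, h2, h1, h0, hma⟩ := pow_facts m hm
  have hmm : m ≤ m ^ m := by
    calc m = m ^ 1 := (pow_one m).symm
      _ ≤ m ^ m := Nat.pow_le_pow_right (by omega) (by omega)
  have hpos : 1 ≤ m * (m - 1) ^ (m - 2) :=
    Nat.mul_pos (by omega) (Nat.pow_pos (by omega))
  rcases Nat.lt_or_ge (p (m - 1)) (p m) with hlt | hge
  · obtain ⟨t, htdef⟩ : ∃ t : ℕ → ℕ, t = fun j => if j ≤ m then
      (m ^ m + m * (m - 1) ^ (m - 2)) + p j - p m else 0 := ⟨_, rfl⟩
    have ht : ∀ j, 1 ≤ j → j ≤ m → t j + p m = (m ^ m + m * (m - 1) ^ (m - 2)) + p j := by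
      intro j _ hj
      rw [htdef]; simp only [if_pos hj]
      have := hp m
      omega
    have ht0 : ∀ j, m < j → t j = 0 := by
      intro j hj
      rw [htdef]; simp only [if_neg (by omega : ¬ j ≤ m)]
    obtain ⟨d1, d2, d3⟩ := Dx_top m hm
    have hb : (m - 1) ≤ (m - 1) ^ (m - 3) := by
      calc (m - 1) = (m - 1) ^ 1 := (pow_one _).symm
        _ ≤ (m - 1) ^ (m - 3) := Nat.pow_le_pow_right (by omega) (by omega)
    have hb2 : (m - 1) ^ (m - 3) ≤ m ^ (m - 3) := Nat.pow_le_pow_left (by omega) _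
    have hcm1 : m.choose (m - 1) * m ^ (m - 1) = m ^ m := by
      have hc1 : m.choose (m - 1) = m := by
        rw [← Nat.choose_symm (by omega : m - 1 ≤ m), show m - (m - 1) = 1 by omega,
          Nat.choose_one_right]
      rw [hc1, ← pow_succ']
      congr 1; omega
    have tm1 := ht (m - 1) (by omega) (by omega)
    have hpm := hp m
    have hR : Rs t := by
      refine from_base m (m ^ m + m * (m - 1) ^ (m - 2)) p t
        (fun j => m.choose j * m ^ j + Dx m (j - 1)) hm hp (Nat.le_add_right _ _) ht ht0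
        (base_two m (by omega)) ?_ ?_ ?_ ?_ ?_
      · rw [Nat.choose_self, one_mul, d1]
      · intro j hj
        rw [Nat.choose_eq_zero_of_lt hj, zero_mul, d3 (j - 1) (by omega)]
      · rw [hcm1, show m - 1 - 1 = m - 2 by omega]
        omega
      · rw [hcm1, show m - 1 - 1 = m - 2 by omega]
        omega
      · intro i hi1 hi
        rw [mul_add, mul_add, Nat.add_sub_cancel]
        exact Nat.add_le_add (T_ratio m m i (by omega)) (Dx_ratio m i hm hi1 hi)
    obtain ⟨f, hf, hft⟩ := hR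
    refine ⟨m ^ m + m * (m - 1) ^ (m - 2), f, hf, by omega, ?_, ?_, ?_⟩
    · rw [hft 1 le_rfl]
      have := ht 1 le_rfl (by omega)
      have := hp 1
      omega
    · intro j hj1 hj
      rw [hft j hj1]; exact ht j hj1 hj
    · intro j hj
      rw [hft j (by omega)]; exact ht0 j hj
  · obtain ⟨t, htdef⟩ : ∃ t : ℕ → ℕ, t = fun j => if j ≤ m then
      m ^ m + p j - p m else 0 := ⟨_, rfl⟩
    have ht : ∀ j, 1 ≤ j → j ≤ m → t j + p m = m ^ m + p j := by
      intro j _ hj
      rw [htdef]; simp only [if_pos hj]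
      have := hp m
      omega
    have ht0 : ∀ j, m < j → t j = 0 := by
      intro j hj
      rw [htdef]; simp only [if_neg (by omega : ¬ j ≤ m)]
    have hcm1 : m.choose (m - 1) * m ^ (m - 1) = m ^ m := by
      have hc1 : m.choose (m - 1) = m := by
        rw [← Nat.choose_symm (by omega : m - 1 ≤ m), show m - (m - 1) = 1 by omega,
          Nat.choose_one_right]
      rw [hc1, ← pow_succ']
      congr 1; omega
    have tm1 := ht (m - 1) (by omega) (by omega)
    have hpm := hp m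
    have hpm1 := hp (m - 1)
    have hR : Rs t := by
      refine from_base m (m ^ m) p t (fun j => m.choose j * m ^ j) hm hp le_rfl ht ht0
        (base_one m) ?_ ?_ ?_ ?_ ?_
      · rw [Nat.choose_self, one_mul]
      · intro j hj
        rw [Nat.choose_eq_zero_of_lt hj, zero_mul]
      · rw [hcm1]
        omega
      · rw [hcm1, ← ha]
        omega
      · intro i hi1 hi
        exact T_ratio m m i (by omega)
    obtain ⟨f, hf, hft⟩ := hR
    refine ⟨m ^ m, f, hf, by omega, ?_, ?_, ?_⟩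
    · rw [hft 1 le_rfl]
      have := ht 1 le_rfl (by omega)
      have := hp 1
      omega
    · intro j hj1 hj
      rw [hft j hj1]; exact ht j hj1 hj
    · intro j hj
      rw [hft j (by omega)]; exact ht0 j hj

end Pool.H78.ND
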