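import Pool.Agent.Helper78.ND.Poly

/-! The construction: every target sequence close to a large constant is realizable. -/

open Finset Polynomial

namespace Pool.H78.ND

/-- `k` restricted to positive indices is the sequence of independent set counts of a graph. -/
def Rs (k : ℕ → ℕ) : Prop := ∃ p : ℕ[X], Rz p ∧ ∀ j, 1 ≤ j → p.coeff j = k j

theorem Rs.zero : Rs (fun _ => 0) := by
  refine ⟨1, Rz.one, fun j hj => ?_⟩
  rw [coeff_one, if_neg (by omega)]

theorem Rs.add {k k' : ℕ → ℕ} (h : Rs k) (h' : Rs k') : Rs (fun j => k j + k' j) := by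
  obtain ⟨p, hp, hk⟩ := h
  obtain ⟨q, hq, hk'⟩ := h'
  obtain ⟨r, hr, hrr⟩ := hp.join hq
  refine ⟨r, hr, fun j hj => ?_⟩
  have := congrArg (fun f : ℕ[X] => f.coeff j) hrr
  simp only [coeff_add, coeff_one, if_neg (by omega : ¬ j = 0), add_zero] at this
  rw [this, hk j hj, hk' j hj]

theorem Rs.mulc {k : ℕ → ℕ} (h : Rs k) (n : ℕ) : Rs (fun j => n * k j) := by
  induction n with
  | zero => simpa using Rs.zero
  | succ n ih =>
    have := ih.add h
    convert this using 2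
    ring

theorem Rs.sum {k : ℕ → ℕ → ℕ} (h : ∀ s, Rs (k s)) (r : ℕ) : Rs (fun j => ∑ s ∈ range r, k s j) := by
  induction r with
  | zero => simpa using Rs.zero
  | succ r ih =>
    have := ih.add (h r)
    convert this using 2
    rw [sum_range_succ]

theorem Rs.of {p : ℕ[X]} (h : Rz p) : Rs (fun j => p.coeff j) := ⟨p, h, fun _ _ => rfl⟩

theorem coeff_lin_mul (p : ℕ[X]) (a j : ℕ) :
    (p * (1 + C a * X)).coeff (j + 1) = p.coeff (j + 1) + a * p.coeff j := by
  rw [mul_add, mul_one, coeff_add, ← mul_assoc, coeff_mul_X, mul_comm p, coeff_C_mul]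

theorem coeff_lin_mul_zero (p : ℕ[X]) (a : ℕ) :
    (p * (1 + C a * X)).coeff 0 = p.coeff 0 := by
  rw [mul_add, mul_one, coeff_add, ← mul_assoc, coeff_mul_X_zero, add_zero]

theorem coeff_lin_pow (a : ℕ) : ∀ (r j : ℕ),
    ((1 + C a * X : ℕ[X]) ^ r).coeff j = r.choose j * a ^ j := by
  intro r
  induction r with
  | zero =>
    intro j
    rcases j with _ | j
    · simp
    · rw [pow_zero, coeff_one, if_neg (by omega), Nat.choose_zero_succ, zero_mul]
  | succ r ih =>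
    intro j
    rw [pow_succ]
    rcases j with _ | j
    · rw [coeff_lin_mul_zero, ih]; simp
    · rw [coeff_lin_mul, ih, ih, Nat.choose_succ_succ]
      ring

/-- data of a polynomial of degree `l` with leading coefficient `c` and coefficients `≤ b`. -/
def Bd (p : ℕ[X]) (l c b : ℕ) : Prop :=
  (∀ j, l < j → p.coeff j = 0) ∧ p.coeff l = c ∧ ∀ j, p.coeff j ≤ b

theorem Bd.mul1 {p : ℕ[X]} {l c b : ℕ} (h : Bd p l c b) : Bd (p * (1 + C 1 * X)) (l + 1) c (2 * b) := by
  obtain ⟨h1, h2, h3⟩ := h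
  refine ⟨?_, ?_, ?_⟩
  · intro j hj
    rcases j with _ | j
    · omega
    · rw [coeff_lin_mul, h1 _ (by omega), h1 _ (by omega)]
  · rw [coeff_lin_mul, h1 _ (by omega), h2]; ring
  · intro j
    rcases j with _ | j
    · rw [coeff_lin_mul_zero]
      have := h3 0
      omega
    · rw [coeff_lin_mul]
      have := h3 (j + 1)
      have := h3 j
      omega

theorem Bd.pow1 {p : ℕ[X]} {l c b : ℕ} (h : Bd p l c b) (t : ℕ) :
    Bd (p * (1 + C 1 * X) ^ t) (l + t) c (2 ^ t * b) := by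
  induction t with
  | zero => simpa using h
  | succ t ih =>
    have := ih.mul1
    rw [mul_assoc, ← pow_succ, add_assoc] at this
    convert this using 1
    rw [pow_succ]; ring

theorem choose_mul_pow_le (m s i : ℕ) (hs : s ≤ m) : s.choose i * m ^ i ≤ m ^ s := by
  by_cases hi : i ≤ s
  · have h1 : s.choose i ≤ m ^ (s - i) := by
      rw [← Nat.choose_symm hi]
      calc s.choose (s - i) ≤ s ^ (s - i) := Nat.choose_le_pow _ _
        _ ≤ m ^ (s - i) := Nat.pow_le_pow_left hs _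
    calc s.choose i * m ^ i ≤ m ^ (s - i) * m ^ i := Nat.mul_le_mul_right _ h1
      _ = m ^ s := by rw [← pow_add]; congr 1; omega
  · rw [Nat.choose_eq_zero_of_lt (by omega), zero_mul]
    exact Nat.zero_le _

theorem Bd.lin (m s : ℕ) (hs : s ≤ m) : Bd ((1 + C m * X) ^ s) s (m ^ s) (m ^ s) := by
  refine ⟨fun j hj => ?_, ?_, fun j => ?_⟩
  · rw [coeff_lin_pow, Nat.choose_eq_zero_of_lt hj, zero_mul]
  · rw [coeff_lin_pow, Nat.choose_self, one_mul]
  · rw [coeff_lin_pow]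
    exact choose_mul_pow_le m s j hs

/-- the building block `(1 + m X)^s (1 + X)^(l-s)`. -/
noncomputable def Q (m l s : ℕ) : ℕ[X] := (1 + C m * X) ^ s * (1 + C 1 * X) ^ (l - s)

theorem Q_Rz (m l s : ℕ) : Rz (Q m l s) := (Rz.lin m s).mul (Rz.lin 1 (l - s))

theorem Q_Bd (m l s : ℕ) (hs : s ≤ l) (hl : l ≤ m) :
    Bd (Q m l s) l (m ^ s) (2 ^ (l - s) * m ^ s) := by
  have := (Bd.lin m s (hs.trans hl)).pow1 (l - s)
  rwa [Nat.add_sub_cancel' hs] at this

theorem digit_sum (m R : ℕ) (r : ℕ) : ∑ s ∈ range r, (R / m ^ s % m) * m ^ s = R % m ^ r := by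
  induction r with
  | zero => simp [Nat.mod_one]
  | succ r ih =>
    rw [sum_range_succ, ih, Nat.mod_pow_succ]
    ring

theorem geo_bound (m l : ℕ) (hm : 4 ≤ m) : ∀ r, r ≤ l →
    ∑ s ∈ range r, m * (2 ^ (l - s) * m ^ s) ≤ 3 * 2 ^ (l - r) * m ^ r + ∑ s ∈ range r, 2 ^ (l - s) * m ^ s := by
  intro r
  induction r with
  | zero => intro _; simp
  | succ r ih =>
    intro hr
    have h1 := ih (by omega)
    rw [sum_range_succ, sum_range_succ]
    obtain ⟨c, hc⟩ : ∃ c, c = 2 ^ (l - (r + 1)) * m ^ r := ⟨_, rfl⟩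
    have h2 : 2 ^ (l - r) * m ^ r = 2 * c := by
      rw [hc, show l - r = (l - (r + 1)) + 1 by omega, pow_succ]; ring
    have h3 : 3 * 2 ^ (l - (r + 1)) * m ^ (r + 1) = 3 * (m * c) := by
      rw [hc, pow_succ]; ring
    have h4 : 3 * 2 ^ (l - r) * m ^ r = 6 * c := by
      rw [mul_assoc, h2]; ring
    rw [h2, h3]
    rw [h4] at h1
    have h5 : 4 * c ≤ m * c := Nat.mul_le_mul_right _ hm
    have h6 : m * (2 * c) = 2 * (m * c) := by ring
    rw [h6]
    omega

theorem filler_small (m l r R : ℕ) (hm : 4 ≤ m) (hl : l ≤ m) (hr : r ≤ l) (hR : R < m ^ r) :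
    ∃ F : ℕ → ℕ, Rs F ∧ F l = R ∧ (∀ j, l < j → F j = 0) ∧ ∀ j, F j ≤ 3 * 2 ^ (l - r) * m ^ r := by
  refine ⟨fun j => ∑ s ∈ range r, (R / m ^ s % m) * (Q m l s).coeff j,
    Rs.sum (fun s => (Rs.of (Q_Rz m l s)).mulc _) r, ?_, ?_, ?_⟩
  · have : ∀ s ∈ range r, (R / m ^ s % m) * (Q m l s).coeff l = (R / m ^ s % m) * m ^ s := by
      intro s hs
      rw [(Q_Bd m l s (by rw [mem_range] at hs; omega) hl).2.1]
    simp only
    rw [sum_congr rfl this, digit_sum, Nat.mod_eq_of_lt hR]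
  · intro j hj
    apply sum_eq_zero
    intro s hs
    rw [(Q_Bd m l s (by rw [mem_range] at hs; omega) hl).1 j hj, mul_zero]
  · intro j
    have h1 : ∑ s ∈ range r, (R / m ^ s % m) * (Q m l s).coeff j +
        ∑ s ∈ range r, 2 ^ (l - s) * m ^ s ≤ ∑ s ∈ range r, m * (2 ^ (l - s) * m ^ s) := by
      rw [← sum_add_distrib]
      apply sum_le_sum
      intro s hs
      have h2 := (Q_Bd m l s (by rw [mem_range] at hs; omega) hl).2.2 j
      have h3 : R / m ^ s % m < m := Nat.mod_lt _ (by omega)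
      calc (R / m ^ s % m) * (Q m l s).coeff j + 2 ^ (l - s) * m ^ s
          ≤ (R / m ^ s % m) * (2 ^ (l - s) * m ^ s) + 2 ^ (l - s) * m ^ s :=
            Nat.add_le_add_right (Nat.mul_le_mul_left _ h2) _
        _ = (R / m ^ s % m + 1) * (2 ^ (l - s) * m ^ s) := by ring
        _ ≤ m * (2 ^ (l - s) * m ^ s) := Nat.mul_le_mul_right _ h3
    have h2 := geo_bound m l hm r hr
    simp only
    omega

theorem T_ratio (m l i : ℕ) (hi : i < l) :
    m * (l.choose i * m ^ i) ≤ (i + 1) * (l.choose (i + 1) * m ^ (i + 1)) := by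
  have h := Nat.choose_succ_right_eq l i
  have h1 : (i + 1) * (l.choose (i + 1) * m ^ (i + 1)) = l.choose i * (l - i) * m ^ (i + 1) := by
    rw [← h]; ring
  rw [h1, pow_succ]
  have h2 : 1 ≤ l - i := by omega
  calc m * (l.choose i * m ^ i) = l.choose i * 1 * (m ^ i * m) := by ring
    _ ≤ l.choose i * (l - i) * (m ^ i * m) :=
      Nat.mul_le_mul_right _ (Nat.mul_le_mul_left _ h2)

theorem filler_full (m l R : ℕ) (hm : 4 ≤ m) (hl : l ≤ m) :
    ∃ F : ℕ → ℕ, Rs F ∧ F l = R ∧ (∀ j, l < j → F j = 0) ∧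
      ∀ i, i < l → m * F i ≤ (i + 1) * F (i + 1) + m * (3 * m ^ l) := by
  obtain ⟨F, hF, h1, h2, h3⟩ := filler_small m l l (R % m ^ l) hm hl le_rfl
    (Nat.mod_lt _ (Nat.pow_pos (by omega)))
  rw [Nat.sub_self, pow_zero, mul_one] at h3
  refine ⟨fun j => (R / m ^ l) * (Q m l l).coeff j + F j,
    ((Rs.of (Q_Rz m l l)).mulc _).add hF, ?_, ?_, ?_⟩
  · simp only
    rw [h1, (Q_Bd m l l le_rfl hl).2.1, mul_comm]
    exact Nat.div_add_mod R (m ^ l)
  · intro j hj
    simp only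
    rw [h2 j hj, (Q_Bd m l l le_rfl hl).1 j hj]
    rfl
  · intro i hi
    have hQ : ∀ j, (Q m l l).coeff j = l.choose j * m ^ j := by
      intro j
      rw [Q, Nat.sub_self, pow_zero, mul_one, coeff_lin_pow]
    simp only
    rw [hQ, hQ]
    have h4 := T_ratio m l i hi
    have h5 := h3 i
    calc m * (R / m ^ l * (l.choose i * m ^ i) + F i)
        = R / m ^ l * (m * (l.choose i * m ^ i)) + m * F i := by ring
      _ ≤ R / m ^ l * ((i + 1) * (l.choose (i + 1) * m ^ (i + 1))) + m * (3 * m ^ l) :=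
          Nat.add_le_add (Nat.mul_le_mul_left _ h4) (Nat.mul_le_mul_left _ h5)
      _ = (i + 1) * (R / m ^ l * (l.choose (i + 1) * m ^ (i + 1))) + m * (3 * m ^ l) := by ring
      _ ≤ (i + 1) * (R / m ^ l * (l.choose (i + 1) * m ^ (i + 1)) + F (i + 1)) + m * (3 * m ^ l) := by
          apply Nat.add_le_add_right
          apply Nat.mul_le_mul_left
          exact Nat.le_add_right _ _

/-- the error budget -/
def E (m j : ℕ) : ℕ := 12 * m ^ (m - 3) + (m ^ (m - 1) - m ^ j)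

/-- the invariant of the construction -/
def Inv (m : ℕ) (t : ℕ → ℕ) (j : ℕ) (k : ℕ → ℕ) : Prop :=
  Rs k ∧ (∀ i, j ≤ i → k i = t i) ∧
    ∀ i, 1 ≤ i → i < j → m * k i ≤ (i + 1) * k (i + 1) + m * E m j

theorem E_step (m j : ℕ) (hm : 4 ≤ m) (hj : j + 1 ≤ m - 1) : E m (j + 1) + 3 * m ^ j ≤ E m j := by
  unfold E
  have h1 : m ^ (j + 1) ≤ m ^ (m - 1) := Nat.pow_le_pow_right (by omega) hj
  have h2 : 4 * m ^ j ≤ m ^ (j + 1) := by
    rw [pow_succ, mul_comm (m ^ j)]
    exact Nat.mul_le_mul_right _ hm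
  omega

theorem Inv.step (m : ℕ) (t : ℕ → ℕ) (j : ℕ) (k : ℕ → ℕ) (hm : 4 ≤ m) (hj : j + 1 ≤ m - 1)
    (hj1 : 1 ≤ j) (ht : (j + 1) * t (j + 1) + m * E m (j + 1) ≤ m * t j)
    (h : Inv m t (j + 1) k) : ∃ k', Inv m t j k' := by
  obtain ⟨h1, h2, h3⟩ := h
  have hle : k j ≤ t j := by
    have := h3 j hj1 (by omega)
    rw [h2 (j + 1) le_rfl] at this
    exact Nat.le_of_mul_le_mul_left (this.trans ht) (by omega)
  obtain ⟨F, hF, f1, f2, f3⟩ := filler_full m j (t j - k j) hm (by omega)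
  refine ⟨fun i => k i + F i, h1.add hF, ?_, ?_⟩
  · intro i hi
    rcases hi.eq_or_lt with rfl | hi
    · simp only
      rw [f1]; omega
    · simp only
      rw [f2 i hi, h2 i hi, add_zero]
  · intro i hi1 hi
    have h4 := h3 i hi1 (by omega)
    have h5 := f3 i hi
    have h6 := E_step m j hm hj
    have h7 : m * E m (j + 1) + m * (3 * m ^ j) ≤ m * E m j := by
      rw [← mul_add]; exact Nat.mul_le_mul_left _ h6
    simp only
    rw [mul_add, mul_add]
    omega

theorem Inv.down (m : ℕ) (t : ℕ → ℕ) (hm : 4 ≤ m)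
    (ht : ∀ j, 1 ≤ j → j + 1 ≤ m - 1 → (j + 1) * t (j + 1) + m * E m (j + 1) ≤ m * t j)
    (k : ℕ → ℕ) (h : Inv m t (m - 1) k) : Rs t := by
  have key : ∀ d, d ≤ m - 2 → ∃ k', Inv m t (m - 1 - d) k' := by
    intro d
    induction d with
    | zero => intro _; exact ⟨k, h⟩
    | succ d ih =>
      intro hd
      obtain ⟨k', hk'⟩ := ih (by omega)
      have h1 : m - 1 - d = (m - 1 - (d + 1)) + 1 := by omega
      rw [h1] at hk'
      exact Inv.step m t _ k' hm (by omega) (by omega) (ht _ (by omega) (by omega)) hk'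
  obtain ⟨k', hk'⟩ := key (m - 2) le_rfl
  rw [show m - 1 - (m - 2) = 1 by omega] at hk'
  obtain ⟨⟨p, hp, hpk⟩, h2, _⟩ := hk'
  exact ⟨p, hp, fun j hj => by rw [hpk j hj, h2 j hj]⟩

theorem pow_facts (m : ℕ) (hm : 4 ≤ m) : ∃ a, a = m ^ (m - 3) ∧ m ^ (m - 2) = m * a ∧
    m ^ (m - 1) = m * (m * a) ∧ m ^ m = m * (m * (m * a)) ∧ m ≤ a := by
  refine ⟨m ^ (m - 3), rfl, ?_, ?_, ?_, ?_⟩
  · rw [show m - 2 = (m - 3) + 1 by omega, pow_succ]; ring
  · rw [show m - 1 = (m - 3) + 2 by omega, pow_add]; ring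
  · conv_lhs => rw [show m = (m - 3) + 3 by omega]
    rw [show m - 3 + 3 = m by omega]
    conv_lhs => rw [show m ^ m = m ^ ((m - 3) + 3) by congr 1; omega]
    rw [pow_add]; ring
  · calc m = m ^ 1 := (pow_one m).symm
      _ ≤ m ^ (m - 3) := Nat.pow_le_pow_right (by omega) (by omega)

/-- target inequality -/
theorem target_ineq (m K : ℕ) (p : ℕ → ℕ) (t : ℕ → ℕ) (hm : 4 ≤ m) (hp : ∀ j, p j ≤ m - 1)
    (hK : m ^ m ≤ K) (ht : ∀ j, 1 ≤ j → j ≤ m → t j + p m = K + p j)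
    (j : ℕ) (hj1 : 1 ≤ j) (hj : j + 1 ≤ m - 1) :
    (j + 1) * t (j + 1) + m * E m (j + 1) ≤ m * t j := by
  obtain ⟨a, ha, h2, h1, h0, hma⟩ := pow_facts m hm
  have hE : m * E m (j + 1) + m * (m - 1) + (j + 1) * K ≤ m * K := by
    have hsmall : 12 * (m * a) + m * (m - 1) ≤ m ^ m := by
      rw [h0]
      have e1 : m * (m - 1) ≤ m * a := Nat.mul_le_mul_left _ (by omega)
      have e2 : 4 * (4 * (m * a)) ≤ m * (m * (m * a)) :=
        Nat.mul_le_mul hm (Nat.mul_le_mul_right _ hm)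
      omega
    rcases Nat.lt_or_ge (j + 1) (m - 1) with hlt | hge
    · have e1 : m * E m (j + 1) ≤ 12 * (m * a) + m ^ m := by
        unfold E
        rw [← ha, h1, h0]
        have : m * (12 * a + (m * (m * a) - m ^ (j + 1))) ≤ m * (12 * a + m * (m * a)) :=
          Nat.mul_le_mul_left _ (by omega)
        calc _ ≤ _ := this
          _ = _ := by ring
      have e2 : (j + 1) * K + 2 * K ≤ m * K := by
        rw [← add_mul]
        exact Nat.mul_le_mul_right _ (by omega)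
      omega
    · have hj' : j + 1 = m - 1 := by omega
      rw [hj']
      have e1 : m * E m (m - 1) = 12 * (m * a) := by
        unfold E
        rw [← ha, Nat.sub_self]; ring
      have e2 : (m - 1) * K + K = m * K := by
        conv_rhs => rw [show m = (m - 1) + 1 by omega]
        ring
      omega
  have t1 := ht j hj1 (by omega)
  have t2 := ht (j + 1) (by omega) (by omega)
  have e3 : (j + 1) * t (j + 1) + (j + 1) * p m = (j + 1) * K + (j + 1) * p (j + 1) := by
    rw [← mul_add, t2, mul_add]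
  have e4 : m * t j + m * p m = m * K + m * p j := by
    rw [← mul_add, t1, mul_add]
  have e5 : (j + 1) * p (j + 1) ≤ (j + 1) * (m - 1) := Nat.mul_le_mul_left _ (hp _)
  have e6 : m * p m = (j + 1) * p m + (m - 1 - j) * p m := by
    rw [← add_mul]; congr 1; omega
  have e7 : (m - 1 - j) * p m ≤ (m - 1 - j) * (m - 1) := Nat.mul_le_mul_left _ (hp _)
  have e8 : (j + 1) * (m - 1) + (m - 1 - j) * (m - 1) = m * (m - 1) := by
    rw [← add_mul]; congr 1; omega
  omega

/-- from a base sequence to the target sequence -/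
theorem from_base (m K : ℕ) (p : ℕ → ℕ) (t c : ℕ → ℕ) (hm : 4 ≤ m) (hp : ∀ j, p j ≤ m - 1)
    (hK : m ^ m ≤ K) (ht : ∀ j, 1 ≤ j → j ≤ m → t j + p m = K + p j) (ht0 : ∀ j, m < j → t j = 0)
    (hc : Rs c) (hcm : c m = K) (hc0 : ∀ j, m < j → c j = 0)
    (hc1 : c (m - 1) ≤ t (m - 1)) (hc2 : t (m - 1) < c (m - 1) + m ^ (m - 3))
    (hc3 : ∀ i, 1 ≤ i → i < m - 1 → m * c i ≤ (i + 1) * c (i + 1)) : Rs t := by
  obtain ⟨F, hF, f1, f2, f3⟩ := filler_small m (m - 1) (m - 3) (t (m - 1) - c (m - 1)) hm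
    (by omega) (by omega) (by omega)
  refine Inv.down m t hm (fun j hj1 hj => target_ineq m K p t hm hp hK ht j hj1 hj)
    (fun i => c i + F i) ⟨hc.add hF, ?_, ?_⟩
  · intro i hi
    rcases hi.eq_or_lt with rfl | hi
    · simp only
      rw [f1]; omega
    · simp only
      rw [f2 i hi, add_zero]
      rcases (show m ≤ i by omega).eq_or_lt with rfl | hi'
      · have := ht m (by omega) le_rfl
        omega
      · rw [hc0 i hi', ht0 i hi']
  · intro i hi1 hi
    have h1 := hc3 i hi1 hi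
    have h2 := f3 i
    have h3 : 3 * 2 ^ (m - 1 - (m - 3)) * m ^ (m - 3) = E m (m - 1) := by
      rw [show m - 1 - (m - 3) = 2 by omega, E, Nat.sub_self]; ring
    rw [h3] at h2
    simp only
    calc m * (c i + F i) = m * c i + m * F i := by ring
      _ ≤ (i + 1) * c (i + 1) + m * E m (m - 1) :=
        Nat.add_le_add h1 (Nat.mul_le_mul_left _ h2)
      _ ≤ (i + 1) * (c (i + 1) + F (i + 1)) + m * E m (m - 1) := by
        apply Nat.add_le_add_right
        apply Nat.mul_le_mul_left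
        omega

end Pool.H78.ND
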